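import Pool.Agent.TH180.TW.Fin
import Pool.Agent.TH180.TW.Mom
import Pool.Agent.TH180.RT.Min

/-!
# A fixed Jacobian over the function fields of all hyperelliptic curves `s ^ 2 = D(t)`

Let `k` be a finite field with `q` elements, `q` odd. We fix an `L`-function over `k(t)`, for example that
of the Jacobian of any curve `X` over `k(t)`, and consider its quadratic twists by all monic
polynomials `D` of degree `n`. For a Jacobian `J`, the `L`-function of `J` over the function field
`K_D` of the hyperelliptic curve `s ^ 2 = D(t)` is the product of that over `k(t)` and the twist by `D`.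
-/

set_option autoImplicit false
set_option linter.all false
set_option maxHeartbeats 1000000

open Polynomial

namespace Pool.Agent.Results.MP_bd895b_nt.HyperellipticBases

section defs

variable {k : Type} [Field k]

open Classical in
/-- The quadratic residue symbol `(D / P)`, for a prime `P`. -/
noncomputable def symbol (D P : k[X]) : ℤ :=
  if P ∣ D then 0 else if ∃ x : k[X], P ∣ x ^ 2 - D then 1 else -1

/-- The Euler factors `∏_i (1 - α P i T ^ (deg P))` of degree at most `r` (some of the numbers may be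
zero) at the primes `P` of `k[t]` have weight at most one: `|α P i| ≤ q_P ^ (1 / 2)`, where
`q_P = q ^ (deg P)`. -/
def Weights {r : ℕ} (α : k[X] → Fin r → ℂ) : Prop :=
  ∀ P : k[X], P.Monic → Irreducible P → ∀ i, ‖α P i‖ ≤ √(Nat.card k : ℝ) ^ P.natDegree

/-- The Euler factors `α'` (at infinity `αinf`) are admissible for the twist of `α` by `D`: they have
weight at most one, and the trace `∑_i α' P i` is `(D / P) ∑_i α P i` for all primes `P` outside of a
finite set `bad` of primes of total degree at most `deg D + c`. -/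
def TwistFactors {r : ℕ} (α : k[X] → Fin r → ℂ) (c : ℕ) (D : k[X]) (bad : Finset k[X])
    (α' : k[X] → Fin r → ℂ) (αinf : Fin r → ℂ) : Prop :=
  ∑ P ∈ bad, P.natDegree ≤ D.natDegree + c ∧ Weights α' ∧ (∀ i, ‖αinf i‖ ≤ √(Nat.card k : ℝ)) ∧
    ∀ P : k[X], P.Monic → Irreducible P → P ∉ bad → ∑ i, α' P i = (symbol D P : ℂ) * ∑ i, α P i

open Classical in
/-- The number `S_m` in `L(T) = exp (∑ S_m T ^ m / m)`, the product of the inverses of the Euler
factors: the sum over the places `v` with `deg v ∣ m` of `deg v ∑_i α_{v,i} ^ (m / deg v)`. -/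
noncomputable def logCoeff {r : ℕ} (α : k[X] → Fin r → ℂ) (αinf : Fin r → ℂ) (m : ℕ) : ℂ :=
  ∑ i, αinf i ^ m + ∑ᶠ P : k[X], if P.Monic ∧ Irreducible P ∧ P.natDegree ∣ m then
    (P.natDegree : ℂ) * ∑ i, α P i ^ (m / P.natDegree) else 0

open Classical in
/-- The `L`-function of the twist of `α` by `D`, formed with some admissible Euler factors, is a
polynomial `∏ (1 - q β_i T)` of degree at most `r deg D + c` with `|β_i| = 1` for all `i`, and vanishes
to order at least `R` at `T = 1 / q`. -/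
def OrderAtLeast {r : ℕ} (α : k[X] → Fin r → ℂ) (c : ℕ) (D : k[X]) (R : ℕ) : Prop :=
  ∃ (bad : Finset k[X]) (α' : k[X] → Fin r → ℂ) (αinf : Fin r → ℂ) (N : ℕ) (β : Fin N → ℂ),
    TwistFactors α c D bad α' αinf ∧ N ≤ r * D.natDegree + c ∧ (∀ i, ‖β i‖ = 1) ∧
    (∀ m : ℕ, 0 < m → logCoeff α' αinf m = -((Nat.card k : ℂ) ^ m * ∑ i, β i ^ m)) ∧
    R ≤ (Finset.univ.filter fun i => β i = 1).card

/-- The monic polynomials of degree `n`. -/
def Monics (k : Type) [Field k] (n : ℕ) : Set k[X] := {D | D.Monic ∧ D.natDegree = n}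

/-- The proportion of the monic polynomials of degree `n` with the property `p` is at most `δ`. -/
def Proportion (n : ℕ) (p : k[X] → Prop) (δ : ℝ) : Prop :=
  ({D ∈ Monics k n | p D}.ncard : ℝ) ≤ δ * (Monics k n).ncard

end defs

section proof

open Pool.Agent.TH180.TW
open Pool.Agent.TH180.HG (chi)
open Pool.Agent.TH180.RT (finAR card_LT)

variable {k : Type} [Field k]

theorem symbol_eq [Fintype k] [DecidableEq k] {P : k[X]} (hP : Irreducible P) (D : k[X]) :
    symbol D P = chi D P := by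
  classical
  have : Fact (Irreducible P) := ⟨hP⟩
  have := finAR hP.ne_zero
  let _ : Fintype (AdjoinRoot P) := Fintype.ofFinite _
  have h : chi D P = quadraticChar (AdjoinRoot P) (AdjoinRoot.mk P D) := by
    unfold chi
    rw [dif_pos hP]
  rw [h, quadraticChar_apply, quadraticCharFun]
  unfold symbol
  have h1 : P ∣ D ↔ AdjoinRoot.mk P D = 0 := AdjoinRoot.mk_eq_zero.symm
  have h2 : (∃ x : k[X], P ∣ x ^ 2 - D) ↔ IsSquare (AdjoinRoot.mk P D) := by
    constructor
    · rintro ⟨x, hx⟩
      refine ⟨AdjoinRoot.mk P x, ?_⟩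
      rw [← map_mul, ← pow_two]
      exact (AdjoinRoot.mk_eq_mk.2 hx).symm
    · rintro ⟨y, hy⟩
      obtain ⟨x, rfl⟩ := AdjoinRoot.mk_surjective y
      refine ⟨x, AdjoinRoot.mk_eq_mk.1 ?_⟩
      rw [hy, ← map_mul, ← pow_two]
  simp only [h1, h2]

theorem mo_monic {n : ℕ} [Fintype k] [DecidableEq k] (ω : degreeLT k n) : (mo ω).Monic := by
  unfold mo
  exact monic_X_pow_add (mem_degreeLT.1 ω.2)

theorem mo_natDegree {n : ℕ} [Fintype k] [DecidableEq k] (ω : degreeLT k n) :
    (mo ω).natDegree = n := by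
  unfold mo
  rw [natDegree_add_eq_left_of_degree_lt]
  · exact natDegree_X_pow n
  · rw [degree_X_pow]
    exact mem_degreeLT.1 ω.2

theorem mo_inj {n : ℕ} [Fintype k] [DecidableEq k] :
    Function.Injective (mo : degreeLT k n → k[X]) := by
  intro x y h
  unfold mo at h
  exact Subtype.ext (add_left_cancel h)

open Classical in
theorem ncard_eq [Fintype k] [DecidableEq k] (n : ℕ) (p : k[X] → Prop) :
    {D ∈ Monics k n | p D}.ncard = (Finset.univ.filter fun ω : degreeLT k n => p (mo ω)).card := by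
  set T : Finset (degreeLT k n) := Finset.univ.filter fun ω => p (mo ω) with hT
  have h : {D ∈ Monics k n | p D} = (mo : degreeLT k n → k[X]) '' (T : Set (degreeLT k n)) := by
    ext D
    constructor
    · rintro ⟨⟨h1, h2⟩, h3⟩
      have h4 : D - X ^ n ∈ degreeLT k n := by
        rw [mem_degreeLT]
        have h5 := degree_sub_lt (p := D) (q := X ^ n) (by
          rw [degree_X_pow, degree_eq_natDegree h1.ne_zero, h2]) h1.ne_zero (by
          rw [h1.leadingCoeff, (monic_X_pow n).leadingCoeff])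
        rwa [degree_eq_natDegree h1.ne_zero, h2] at h5
      have h6 : mo (⟨D - X ^ n, h4⟩ : degreeLT k n) = D := by
        unfold mo
        ring
      refine ⟨⟨D - X ^ n, h4⟩, ?_, h6⟩
      rw [Finset.mem_coe, hT, Finset.mem_filter, h6]
      exact ⟨Finset.mem_univ _, h3⟩
    · rintro ⟨ω, hω, rfl⟩
      rw [Finset.mem_coe, hT, Finset.mem_filter] at hω
      exact ⟨⟨mo_monic ω, mo_natDegree ω⟩, hω.2⟩
  rw [h, Set.ncard_image_of_injective _ mo_inj, Set.ncard_coe_finset]

theorem fin_monics [Finite k] (n : ℕ) : (Monics k n).Finite := by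
  classical
  let _ : Fintype k := Fintype.ofFinite k
  refine Set.Finite.subset (Set.finite_range fun ω : degreeLT k n => mo ω) ?_
  rintro D ⟨h1, h2⟩
  have h4 : D - X ^ n ∈ degreeLT k n := by
    rw [mem_degreeLT]
    have h5 := degree_sub_lt (p := D) (q := X ^ n) (by
      rw [degree_X_pow, degree_eq_natDegree h1.ne_zero, h2]) h1.ne_zero (by
      rw [h1.leadingCoeff, (monic_X_pow n).leadingCoeff])
    rwa [degree_eq_natDegree h1.ne_zero, h2] at h5
  refine ⟨⟨D - X ^ n, h4⟩, ?_⟩
  show mo _ = D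
  unfold mo
  ring

theorem ncard_monics [Fintype k] [DecidableEq k] (n : ℕ) :
    ((Monics k n).ncard : ℝ) = (Nat.card k : ℝ) ^ n := by
  classical
  have h := ncard_eq (k := k) n (fun _ => True)
  have e : {D ∈ Monics k n | True} = Monics k n := by
    ext D
    simp
  rw [e] at h
  rw [h, Finset.filter_true, Finset.card_univ, card_LT, Nat.card_eq_fintype_card]
  push_cast
  rfl

theorem to_big [Fintype k] [DecidableEq k] {r : ℕ} {α : k[X] → Fin r → ℂ} {c n R : ℕ} {D : k[X]}
    (hD : D.natDegree = n) (h : OrderAtLeast α c D R) : Big α c n R D := by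
  obtain ⟨B, α', αinf, N, β, ⟨h1, h2, h3, h4⟩, h5, h6, h7, h8⟩ := h
  rw [hD] at h1 h5
  refine ⟨B, α', αinf, N, β, ⟨h1, fun P p1 p2 => ⟨h2 P p1 p2, fun p3 => ?_⟩, h3⟩, h5, h6, h7, h8⟩
  rw [h4 P p1 p2 p3, symbol_eq p2]

theorem mono {r : ℕ} {α : k[X] → Fin r → ℂ} {c R R' : ℕ} {D : k[X]} (h : OrderAtLeast α c D R')
    (hR : R ≤ R') : OrderAtLeast α c D R := by
  obtain ⟨B, α', α'', N, β, h1, h2, h3, h4, h5⟩ := h
  exact ⟨B, α', α'', N, β, h1, h2, h3, h4, hR.trans h5⟩

theorem prop_order [Finite k] (h2 : (2 : k) ≠ 0) {r : ℕ} (hr : 0 < r) {α : k[X] → Fin r → ℂ}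
    (hα : Weights α) {c n : ℕ} (hn : 0 < n) (hc : c ≤ n) {R : ℕ} (hR : 0 < R) :
    Proportion n (fun D : k[X] => OrderAtLeast α c D R)
      ((4 * r / (R : ℝ)) ^ (R / (54 * r + 6))) := by
  classical
  let _ : Fintype k := Fintype.ofFinite k
  have h := tail h2 hr hα hn hc R hR
  unfold Proportion
  rw [ncard_eq, ncard_monics]
  refine le_trans ?_ h
  have h3 : (Finset.univ.filter fun ω : degreeLT k n => OrderAtLeast α c (mo ω) R) ⊆
      Finset.univ.filter fun ω : degreeLT k n => Big α c n R (mo ω) := by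
    intro ω hω
    rw [Finset.mem_filter] at hω ⊢
    exact ⟨hω.1, to_big (mo_natDegree ω) hω.2⟩
  exact_mod_cast Finset.card_le_card h3

theorem prop_mono [Finite k] {n : ℕ} {p p' : k[X] → Prop} {δ : ℝ}
    (h : Proportion n p δ) (hp : ∀ D ∈ Monics k n, p' D → p D) : Proportion n p' δ := by
  unfold Proportion at h ⊢
  refine le_trans ?_ h
  have h1 : {D ∈ Monics k n | p' D} ⊆ {D ∈ Monics k n | p D} :=
    fun D hD => ⟨hD.1, hp _ hD.1 hD.2⟩
  exact_mod_cast Set.ncard_le_ncard h1 ((fin_monics n).subset fun x hx => hx.1)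

theorem prop_f [Finite k] (h2 : (2 : k) ≠ 0) {r : ℕ} (hr : 0 < r) {α : k[X] → Fin r → ℂ}
    (hα : Weights α) {c n : ℕ} (hn : 0 < n) (hc : c ≤ n) {f : k[X] → ℕ}
    (hf : ∀ D ∈ Monics k n, 0 < f D → OrderAtLeast α c D (f D)) {R : ℕ} (hR : 0 < R) :
    Proportion n (fun D : k[X] => R ≤ f D) ((4 * r / (R : ℝ)) ^ (R / (54 * r + 6))) :=
  prop_mono (prop_order h2 hr hα hn hc hR) fun D hD h => mono (hf D hD (hR.trans_le h)) h

theorem moments [Finite k] (h2 : (2 : k) ≠ 0) {r : ℕ} (hr : 0 < r) {α : k[X] → Fin r → ℂ}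
    (hα : Weights α) {c n : ℕ} (hn : 0 < n) (hc : c ≤ n) {f : k[X] → ℕ}
    (hf : ∀ D ∈ Monics k n, 0 < f D → OrderAtLeast α c D (f D)) {s : ℝ} (hs : 0 ≤ s) :
    ∑ᶠ D ∈ Monics k n, s ^ f D ≤ cst (4 * r) (54 * r + 6) 1 s * (Monics k n).ncard := by
  classical
  rw [finsum_mem_eq_finite_toFinset_sum _ (fin_monics n),
    Set.ncard_eq_toFinset_card _ (fin_monics n)]
  refine exp_moment (fin_monics n).toFinset f (by positivity) (by norm_num) ?_ hs
  intro R hR
  have h3 := prop_f h2 hr hα hn hc hf hR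
  unfold Proportion at h3
  rw [Set.ncard_eq_toFinset_card _ (fin_monics n)] at h3
  have h4 : (((fin_monics (k := k) n).toFinset.filter fun D => R ≤ f D).card : ℝ) =
      ({D ∈ Monics k n | R ≤ f D}.ncard : ℝ) := by
    congr 1
    rw [← Set.ncard_coe_finset]
    congr 1
    ext x
    simp
  rw [h4]
  refine h3.trans (le_of_eq ?_)
  rw [one_mul]
  unfold tl
  push_cast
  rfl

end proof

/-- **Main theorem.** Let `k` be a finite field of odd characteristic with `q` elements, `r ≥ 1`, and
let `α` be any system of Euler factors over `k(t)` of degree at most `r` and weight at most one, for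
example that of the Jacobian of any curve over `k(t)` of genus `r / 2`. For all `n ≥ max(1, c)` and
`R ≥ 1`, the proportion of the monic polynomials `D` of degree `n` for which the `L`-function of the
twist of `α` by `D` is a polynomial of degree at most `r n + c`, satisfies the Riemann hypothesis and
vanishes to order at least `R` at `T = 1 / q` is at most `(4 r / R) ^ ⌊R / (54 r + 6)⌋`. The same
holds for the proportion of `D` with `f(D) ≥ R`, if `f` is any function which is at most this order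
wherever it is positive, and the average of `s ^ f` is at most `C(r, s)`, for all `s ≥ 0`. -/
theorem result : ∃ C : ℕ → ℝ → ℝ, ∀ (r : ℕ), 0 < r → ∀ (k : Type) [Field k] [Finite k],
    (2 : k) ≠ 0 → ∀ (α : k[X] → Fin r → ℂ), Weights α → ∀ (c n : ℕ), 0 < n → c ≤ n →
    (∀ R : ℕ, 0 < R → Proportion n (fun D : k[X] => OrderAtLeast α c D R)
      ((4 * r / (R : ℝ)) ^ (R / (54 * r + 6)))) ∧
    ∀ f : k[X] → ℕ, (∀ D ∈ Monics k n, 0 < f D → OrderAtLeast α c D (f D)) →
      (∀ R : ℕ, 0 < R → Proportion n (fun D => R ≤ f D)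
        ((4 * r / (R : ℝ)) ^ (R / (54 * r + 6)))) ∧
      ∀ s : ℝ, 0 ≤ s → ∑ᶠ D ∈ Monics k n, s ^ f D ≤ C r s * (Monics k n).ncard := by
  refine ⟨fun r s => Pool.Agent.TH180.TW.cst (4 * r) (54 * r + 6) 1 s,
    fun r hr k _ _ h2 α hα c n hn hc => ⟨fun R hR => prop_order h2 hr hα hn hc hR, fun f hf =>
      ⟨fun R hR => prop_f h2 hr hα hn hc hf hR, fun s hs => moments h2 hr hα hn hc hf hs⟩⟩⟩

end Pool.Agent.Results.MP_bd895b_nt.HyperellipticBases
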