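import Mathlib
import Pool.Agent.TH344.TJ.Main2
import Pool.Agent.TH841.PT.NRM

/-!
# Twists of hyperelliptic Jacobians by norms, and by numbers with splitting prime factors

Let `g ≥ 1`, let `a_0, ..., a_(2g)` be distinct integers and let `J` be the Jacobian of the curve
`X : y² = ∏ (x - a_i)` of genus `g` over `ℚ`. For an integer `e ≠ 0` let `J_e` be the quadratic twist
of `J` by `ℚ(√e)`. This is the Jacobian of `e y² = ∏ (x - a_i)`, i.e. of `y² = ∏ (x - e a_i)`. Let
`h` be an irreducible polynomial of degree `n` with integer coefficients. We consider the twists by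
the integers `d ≠ 0` such that `h` has `n` zeros modulo every prime `p > z` which divides `d` exactly
once, i.e. essentially the `d` whose prime factors split completely in the number field generated by
a zero of `h`. For instance, the `d` such that `|d|` is the norm of a fractional ideal of a Galois
number field of degree `n` have this property, for a polynomial `h` that defines this field. For every
real `lam > 0` and all `k` the sum of `lam ^ ω(d) * # Sel₂(J_d) ^ k` over these integers `d` in
`(N, N + M]` is at most `C M (log M) ^ (lam / n - 1)`, uniformly for `|N| ≤ M ^ L`. For Galois number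
fields this is the order of the sum of `lam ^ ω(d)` over the norms `d ≤ M`. So the 2-Selmer groups are
bounded on average over these sparse sets of twists.

The descent map. Every class of divisors of degree zero on `X : y² = ∏ (x - a_i)` over an infinite
field `K` contains a divisor `D_(u,v) = ∑ (x_j, v (x_j)) - deg u · ∞`, `x_j` the zeros of the monic
polynomial `u`, where `u` divides `∏ (x - a_i) - v²` and `u (a_i) ≠ 0` for all `i` (Mumford
representation). The map `J(K) / 2 J(K) → (K^* / K^*²)^(2g+1)` which sends this class to the family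
of the classes of `(-1) ^ deg u * u (a_i)` is injective, and it is induced by the isomorphism of
`J[2]` with the group of the families of signs with product one, indexed by the `a_i`. So the
2-Selmer group of `J` is the group of the families of classes in `ℚ^* / ℚ^*²`, that are in the image
over `ℝ` and over `ℚ_p` for all primes `p`. The classes of `ℚ^* / ℚ^*²` are represented by
squarefree integers.
-/

namespace Pool.Agent.Results.MP_bd895b_nt.JacobianNormTwists

open Polynomial Finset nonZeroDivisors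

/-- The family of the classes of the integers `d i` in `K^* / K^*²` is in the image of the
Jacobian of `y² = ∏ (x - a i)` over `K`: there are a monic polynomial `u` and a polynomial `v` with
`u ∣ ∏ (x - a i) - v²`, such that `u (a i) ≠ 0` and `(-1) ^ deg u * u (a i) * d i` is a square for
all `i`. -/
def Image (K : Type) [Field K] {n : ℕ} (a d : Fin n → ℤ) : Prop :=
  ∃ u v : K[X], u.Monic ∧ u ∣ (∏ i, (X - C ((a i : ℤ) : K))) - v ^ 2 ∧
    ∀ i, u.eval ((a i : ℤ) : K) ≠ 0 ∧
      IsSquare ((-1) ^ u.natDegree * u.eval ((a i : ℤ) : K) * ((d i : ℤ) : K))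

/-- The image of the Mordell-Weil group `J(ℚ)`, as a set of families of squarefree integers. It has
as many elements as `J(ℚ) / 2 J(ℚ)`. -/
def MW {n : ℕ} (a : Fin n → ℤ) : Set (Fin n → ℤ) := {d | (∀ i, Squarefree (d i)) ∧ Image ℚ a d}

/-- The 2-Selmer group of the Jacobian `J` of `y² = ∏ (x - a i)`, as a set of families of
squarefree integers. The quotient of this group by `MW a` is `Ш(J)[2]`. -/
def Sel2 {n : ℕ} (a : Fin n → ℤ) : Set (Fin n → ℤ) :=
  {d | (∀ i, Squarefree (d i)) ∧ Image ℝ a d ∧ ∀ (p : ℕ) [Fact p.Prime], Image ℚ_[p] a d}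

/-- the Weierstrass points of the quadratic twist by `d` of `y² = ∏ (x - a i)` -/
def twist {n : ℕ} (d : ℤ) (a : Fin n → ℤ) : Fin n → ℤ := fun i => d * a i

/-- the number of the primes dividing `n` -/
def om (n : ℤ) : ℕ := n.natAbs.primeFactors.card

/-- Modulo every prime `p > z` which divides `d` exactly once, the polynomial `h` has as many zeros
as its degree. -/
def Splits (h : ℤ[X]) (z : ℕ) (d : ℤ) : Prop :=
  ∀ p : ℕ, p.Prime → z < p → (p : ℤ) ∣ d → ¬ (p : ℤ) ^ 2 ∣ d →
    ((range p).filter (fun x : ℕ => (p : ℤ) ∣ h.eval (x : ℤ))).card = h.natDegree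

open Classical in
/-- the integers `d ≠ 0` of the interval `(N, N + M]` with `Splits h z d` and `P d` -/
noncomputable def twists (h : ℤ[X]) (z : ℕ) (N : ℤ) (M : ℕ) (P : ℤ → Prop) : Finset ℤ :=
  (Ioc N (N + (M : ℤ))).filter (fun d => d ≠ 0 ∧ Splits h z d ∧ P d)

/-- `d` has at least `mu log log M` prime factors if `lam ≥ 1`, and at most this number if
`lam < 1` -/
def Untypical (lam mu : ℝ) (M : ℕ) (d : ℤ) : Prop :=
  (1 ≤ lam → mu * Real.log (Real.log M) ≤ om d) ∧
    (lam < 1 → om d ≤ mu * Real.log (Real.log M))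

lemma mem_twists {h : ℤ[X]} {z : ℕ} {N : ℤ} {M : ℕ} {P : ℤ → Prop} {d : ℤ} :
    d ∈ twists h z N M P ↔ d ∈ Ioc N (N + (M : ℤ)) ∧ d ≠ 0 ∧ Splits h z d ∧ P d := by
  classical
  unfold twists
  rw [mem_filter]

/-- the weight on the untypical integers -/
lemma weight_ge {lam mu : ℝ} (hlam : 0 < lam) {M : ℕ} (hM : 2 ≤ M) {d : ℤ}
    (h : Untypical lam mu M d) : (Real.log M) ^ (mu * Real.log lam) ≤ lam ^ om d := by
  have hl : 0 < Real.log M := Real.log_pos (by exact_mod_cast hM)
  have e1 : (Real.log M) ^ (mu * Real.log lam) =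
      Real.exp (Real.log lam * (mu * Real.log (Real.log M))) := by
    rw [Real.rpow_def_of_pos hl]
    congr 1
    ring
  have e2 : lam ^ om d = Real.exp (Real.log lam * (om d : ℝ)) := by
    rw [mul_comm, ← Real.log_pow, Real.exp_log (by positivity)]
  rw [e1, e2]
  apply Real.exp_le_exp.2
  rcases le_or_gt 1 lam with h1 | h1
  · exact mul_le_mul_of_nonneg_left (h.1 h1) (Real.log_nonneg h1)
  · exact mul_le_mul_of_nonpos_left (h.2 h1) (Real.log_nonpos hlam.le h1.le)

/-- **Theorem.** Let `g ≥ 1` and let `a` be a family of `2 g + 1` distinct integers. For every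
integer `e ≠ 0` the 2-Selmer group `Sel2 (twist e a)` of the Jacobian `J_e` of `y² = ∏ (x - e a_i)`
is finite and contains the (nonempty) image `MW (twist e a)` of `J_e(ℚ) / 2 J_e(ℚ)`. Let `h` be an
irreducible polynomial of degree `n ≥ 1` with integer coefficients, `z` a natural number, and
`lam > 0`. For all `k`, `L` there is `C` such that the sum of
`lam ^ ω(d) * (# Sel2 (twist d a)) ^ k` over the integers `d ≠ 0` of `(N, N + M]` with `Splits h z d`
is at most `C * M * (log M) ^ (lam / n - 1)`, for all `M ≥ 2` and all `N`, `|N| ≤ M ^ L`. For every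
real number `A ≥ 0` and every `L` there is `C` such that for all `m`, all `M ≥ 2` and all `N`,
`|N| ≤ M ^ L`, the number of these `d` with `ω(d) ≥ (lam / n) * log log M` (if `lam ≥ 1`; `≤` if
`lam < 1`) and `# Sel2 ≥ 2 ^ m` is at most
`C * M / ((log M) ^ ((lam / n) * log lam - lam / n + 1) * A ^ m)`; the same holds for `# MW ≥ 2 ^ m`
and for `# Sel2 / # MW ≥ 2 ^ m`, where `# Sel2 / # MW` is the order of `Ш(J_d)[2]`. For every Galois
number field `F` there are an irreducible polynomial `h` of degree `[F : ℚ]` and `z` such that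
`Splits h z d` holds for all integers `d ≠ 0` for which `|d|` is the norm of a fractional ideal of
`F`. -/
theorem result (g : ℕ) (hg : 1 ≤ g) (a : Fin (2 * g + 1) → ℤ) (ha : Function.Injective a) :
    (∀ e : ℤ, e ≠ 0 → (Sel2 (twist e a)).Finite ∧ MW (twist e a) ⊆ Sel2 (twist e a) ∧
      (MW (twist e a)).Nonempty) ∧
    (∀ (h : ℤ[X]) (z : ℕ) (lam : ℝ), Irreducible h → 0 < h.natDegree → 0 < lam →
      (∀ k L : ℕ, ∃ C : ℝ, ∀ (N : ℤ) (M : ℕ), 2 ≤ M → |N| ≤ (M : ℤ) ^ L →
        ∑ d ∈ twists h z N M (fun _ => True),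
          lam ^ om d * ((Sel2 (twist d a)).ncard : ℝ) ^ k ≤
            C * (M * (Real.log M) ^ (lam / h.natDegree - 1))) ∧
      ∀ (A : ℝ) (L : ℕ), 0 ≤ A → ∃ C : ℝ, ∀ (m : ℕ) (N : ℤ) (M : ℕ), 2 ≤ M →
        |N| ≤ (M : ℤ) ^ L →
        A ^ m * ((twists h z N M (fun d => Untypical lam (lam / h.natDegree) M d ∧
          2 ^ m ≤ (Sel2 (twist d a)).ncard)).card : ℝ) ≤
            C * (M / (Real.log M) ^ (lam / h.natDegree * Real.log lam - lam / h.natDegree + 1)) ∧
        A ^ m * ((twists h z N M (fun d => Untypical lam (lam / h.natDegree) M d ∧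
          2 ^ m ≤ (MW (twist d a)).ncard)).card : ℝ) ≤
            C * (M / (Real.log M) ^ (lam / h.natDegree * Real.log lam - lam / h.natDegree + 1)) ∧
        A ^ m * ((twists h z N M (fun d => Untypical lam (lam / h.natDegree) M d ∧
          2 ^ m * (MW (twist d a)).ncard ≤ (Sel2 (twist d a)).ncard)).card : ℝ) ≤
            C * (M / (Real.log M) ^
              (lam / h.natDegree * Real.log lam - lam / h.natDegree + 1))) ∧
    ∀ (F : Type) [Field F] [NumberField F] [IsGalois ℚ F],
      ∃ (h : ℤ[X]) (z : ℕ), Irreducible h ∧ h.natDegree = Module.finrank ℚ F ∧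
        ∀ (I : FractionalIdeal (NumberField.RingOfIntegers F)⁰ F) (d : ℤ), d ≠ 0 →
          FractionalIdeal.absNorm I = (d.natAbs : ℚ) → Splits h z d := by
  classical
  have hodd : Odd (2 * g + 1) := ⟨g, rfl⟩
  have hfin : ∀ d : ℤ, d ≠ 0 → (Sel2 (twist d a)).Finite ∧ MW (twist d a) ⊆ Sel2 (twist d a) ∧
      (MW (twist d a)).Nonempty := by
    intro d hd
    have hinj : Function.Injective (twist d a) := by
      intro i j hij
      exact ha (mul_left_cancel₀ hd hij)
    refine ⟨Pool.Agent.TH344.JG.seljf hodd hinj, ?_, ?_⟩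
    · rintro e ⟨h1, h2⟩
      exact ⟨h1, Pool.Agent.TH344.JG.LocJ_map (algebraMap ℚ ℝ) h2, fun p _ =>
        Pool.Agent.TH344.JG.LocJ_map (algebraMap ℚ ℚ_[p]) h2⟩
    · exact ⟨fun _ => 1, fun _ => squarefree_one, Pool.Agent.TH344.JG.LocJ_one ℚ _⟩
  refine ⟨hfin, fun h z lam hh hn hlam => ?_, fun F _ _ _ => ?_⟩
  swap
  · obtain ⟨h, hh, hn, z, hz⟩ := Pool.Agent.TH841.PT.NRMf.nrm F
    exact ⟨h, z, hh, hn, fun I d hd hI p hp hzp h1 h2 => hz I d hd hI p hp hzp h1 h2⟩
  have hmom : ∀ k L : ℕ, ∃ C : ℝ, ∀ (N : ℤ) (M : ℕ), 2 ≤ M → |N| ≤ (M : ℤ) ^ L →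
      ∑ d ∈ twists h z N M (fun _ => True),
        lam ^ om d * ((Sel2 (twist d a)).ncard : ℝ) ^ k ≤
          C * (M * (Real.log M) ^ (lam / h.natDegree - 1)) := by
    intro k L
    obtain ⟨C, -, hC⟩ := Pool.Agent.TH344.TJ.spl_of (Pool.Agent.TH344.TJ.elm hg a ha)
      (Pool.Agent.TH344.TJ.awr hg a ha) hh hn lam hlam z k L
    refine ⟨C, fun N M hM hN => ?_⟩
    refine hC N M hM hN (twists h z N M (fun _ => True)) fun d hd => ?_
    rw [mem_twists] at hd
    exact ⟨hd.1, hd.2.1, fun p hp hzp h1 h2 => hd.2.2.1 p hp hzp h1 h2⟩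
  refine ⟨hmom, fun A L hA => ?_⟩
  obtain ⟨k, hk⟩ := pow_unbounded_of_one_lt A (one_lt_two : (1 : ℝ) < 2)
  obtain ⟨C, hC⟩ := hmom k L
  refine ⟨C, fun m N M hM hN => ?_⟩
  have h0 := hC N M hM hN
  have hl : 0 < Real.log M := Real.log_pos (by exact_mod_cast hM)
  set mu : ℝ := lam / h.natDegree with hmu
  set V : ℝ := (Real.log M) ^ (mu * Real.log lam) with hV
  have hV0 : 0 < V := Real.rpow_pos_of_pos hl _
  have hVe : C * (M * (Real.log M) ^ (mu - 1)) =
      V * (C * (M / (Real.log M) ^ (mu * Real.log lam - mu + 1))) := by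
    have h1 : (Real.log M) ^ (mu - 1) =
        V / (Real.log M) ^ (mu * Real.log lam - mu + 1) := by
      rw [hV, ← Real.rpow_sub hl]
      congr 1
      ring
    rw [h1]
    ring
  have key : ∀ P : ℤ → Prop, (∀ d, d ≠ 0 → P d →
      (2 : ℝ) ^ m ≤ ((Sel2 (twist d a)).ncard : ℝ)) →
      A ^ m * ((twists h z N M (fun d => Untypical lam mu M d ∧ P d)).card : ℝ) ≤
        C * (M / (Real.log M) ^ (mu * Real.log lam - mu + 1)) := by
    intro P hP
    have h1 : V * (A ^ m *
        ((twists h z N M (fun d => Untypical lam mu M d ∧ P d)).card : ℝ)) ≤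
        C * (M * (Real.log M) ^ (mu - 1)) := by
      refine le_trans ?_ h0
      calc V * (A ^ m * ((twists h z N M (fun d => Untypical lam mu M d ∧ P d)).card : ℝ))
          = ∑ d ∈ twists h z N M (fun d => Untypical lam mu M d ∧ P d), V * A ^ m := by
            rw [sum_const, nsmul_eq_mul]
            ring
        _ ≤ ∑ d ∈ twists h z N M (fun d => Untypical lam mu M d ∧ P d),
            lam ^ om d * ((Sel2 (twist d a)).ncard : ℝ) ^ k := by
            apply sum_le_sum
            intro d hd
            rw [mem_twists] at hd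
            apply mul_le_mul (weight_ge hlam hM hd.2.2.2.1) _ (pow_nonneg hA m) (by positivity)
            calc A ^ m ≤ ((2 : ℝ) ^ k) ^ m := pow_le_pow_left₀ hA hk.le m
              _ = ((2 : ℝ) ^ m) ^ k := by rw [← pow_mul, ← pow_mul, mul_comm]
              _ ≤ _ := pow_le_pow_left₀ (by positivity) (hP d hd.2.1 hd.2.2.2.2) k
        _ ≤ ∑ d ∈ twists h z N M (fun _ => True),
            lam ^ om d * ((Sel2 (twist d a)).ncard : ℝ) ^ k := by
            apply sum_le_sum_of_subset_of_nonneg
            · intro d hd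
              rw [mem_twists] at hd ⊢
              exact ⟨hd.1, hd.2.1, hd.2.2.1, trivial⟩
            · intro d _ _
              positivity
    rw [hVe] at h1
    exact le_of_mul_le_mul_left h1 hV0
  refine ⟨key _ fun d _ h => by exact_mod_cast h, key _ fun d hd h => ?_, key _ fun d hd h => ?_⟩
  · obtain ⟨h4, h5, -⟩ := hfin _ hd
    exact_mod_cast h.trans (Set.ncard_le_ncard h5 h4)
  · obtain ⟨h4, h5, h6⟩ := hfin _ hd
    have h7 : 0 < (MW (twist d a)).ncard := (Set.ncard_pos (h4.subset h5)).2 h6
    exact_mod_cast (Nat.le_mul_of_pos_right _ h7).trans h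

end Pool.Agent.Results.MP_bd895b_nt.JacobianNormTwists
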