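import Pool.Agent.TH439.TG1

/-!
# The degree one part of the local-global question, over number fields: special threefolds suffice

Suppose that, for every smooth projective geometrically integral threefold `Y` over a number field
and every finite extension `F` of the base field and every prime number `p` such that `F` contains
the `p`-th roots of unity (and the 4-th roots of unity if `p` is odd), `Y` has points over all
completions of `F` and over a cyclic extension of `F` of degree `p`, the existence of a family of
local zero-cycles of degree 1 on `Y_F` orthogonal to `Br(Y_F)` implies that the index of `Y_F` is
prime to `p`. Then for all smooth projective geometrically integral varieties of dimension `≥ 3`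
over number fields the existence of an orthogonal family of local zero-cycles of degree 1 implies
the existence of a zero-cycle of degree 1.
-/

set_option autoImplicit false

open Pool.Agent.TH439

universe u

namespace Pool.Agent.Results.MP_bd895b_nt.SpecialThreefolds

/-- **Special threefolds suffice.** -/
theorem result (A : TF.Arithmetic.{u}) (D : ∀ (p : ℕ) [Fact p.Prime], TF.AtPrime A p)
    (G : TG.GaloisData A.W) (B : TG.Compare A G) (h : TG.SpecialThreefolds B) :
    ∀ d : ℕ, 3 ≤ d → A.ZCDim d :=
  fun d hd => A.zcDim D (TG.zcDim_three B h) d hd

end Pool.Agent.Results.MP_bd895b_nt.SpecialThreefolds
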