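import Mathlib
import Pool.Agent.TH841.ZC.Main
import Pool.Agent.TH841.ZC.Mul
import Pool.Agent.TH841.ZC.Mum
import Pool.Agent.TH841.ZC.Nrm
import Pool.Agent.TH841.FD.Covl

/-!
# Zero-cycles of degree one on the everywhere locally solvable quartics in one-parameter families

Let `A = D(t) u₀(t)`, `B = D(t) u₁(t)`, where `u₀`, `u₁`, `u₂ = u₀ - u₁` are polynomials with
integer coefficients, `u_k` a constant times a product of `n_k` irreducible polynomials, and
`D = c ∏ g_i`. For a squarefree divisor `b₁` of `A B` consider the curve of genus one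
`C : N² = b₁ M⁴ - (A + B) M² e² + (A B / b₁) e⁴` (a 2-isogeny covering of
`y² = x (x - A) (x - B)`). The divisor of the function `g = (b₁ M² - A e²) / e²` on `C` is divisible
by `2`, so that the classes `(g, ε)`, `ε ∈ ℚ*`, belong to the Brauer group of `C`. The value of
such a class at a zero-cycle `∑ n_i P_i` over a field `K`, `P_i` a point over a finite extension
`L_i` of `K`, is `(∏ N_{L_i/K}(g(P_i)) ^ n_i, ε)`, by the projection formula for the corestriction.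
We prove that for most of the curves `C` with points everywhere locally no family of local
zero-cycles of degree one is orthogonal to these classes; and so the index of `C` is `2`.
-/

set_option autoImplicit false

namespace Pool.Agent.Results.MP_bd895b_nt.ZeroCyclesOnQuartics

open Finset Polynomial

open Pool.Agent.W313.BMX (Splits Fam ram IsTest)

/-- A point over `K` of the curve `C : N² = b₁ M⁴ - (A + B) M² e² + (A B / b₁) e⁴` -/
structure Point (A B b₁ : ℤ) (K : Type) [Field K] where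
  /-- the first coordinate -/
  M : K
  /-- the second coordinate -/
  e : K
  /-- the third coordinate -/
  N : K
  ne : M ≠ 0 ∨ e ≠ 0
  eq : N ^ 2 = (b₁ : K) * M ^ 4 + ((-(A + B) : ℤ) : K) * M ^ 2 * e ^ 2 +
    ((A * B / b₁ : ℤ) : K) * e ^ 4

/-- the squarefree `b₁ ∣ A B` for which `C` has points everywhere locally -/
def ELS (A B : ℤ) : Set ℤ := {b₁ | Squarefree b₁ ∧ b₁ ∣ A * B ∧ Nonempty (Point A B b₁ ℝ) ∧
  ∀ (p : ℕ) [Fact p.Prime], Nonempty (Point A B b₁ ℚ_[p])}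

/-- A zero-cycle on `C` over `K`: finitely many points `P i` over finite extensions `L i` of `K`,
with multiplicities `n i`. -/
structure ZeroCycle (A B b₁ : ℤ) (K : Type) [Field K] where
  /-- the index set -/
  ι : Type
  [fin : Fintype ι]
  /-- the fields -/
  L : ι → Type
  [fld : ∀ i, Field (L i)]
  [alg : ∀ i, Algebra K (L i)]
  [fd : ∀ i, FiniteDimensional K (L i)]
  /-- the points -/
  P : ∀ i, Point A B b₁ (L i)
  /-- the multiplicities -/
  n : ι → ℤ

attribute [instance] ZeroCycle.fin ZeroCycle.fld ZeroCycle.alg ZeroCycle.fd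

variable {A B b₁ : ℤ}

/-- the degree `∑ n_i [L_i : K]` -/
noncomputable def ZeroCycle.degree {K : Type} [Field K] (z : ZeroCycle A B b₁ K) : ℤ :=
  ∑ i, z.n i * (Module.finrank K (z.L i) : ℤ)

open Classical in
/-- The value of the function `g` at a point, modulo squares; at a zero of `b₁ M² - A e²` it is
computed from `(b₁ M² - A e²) (b₁ M² - B e²) = b₁ N²`. -/
noncomputable def valueAt {K : Type} [Field K] (P : Point A B b₁ K) : K :=
  if (b₁ : K) * P.M ^ 2 - (A : K) * P.e ^ 2 ≠ 0 then (b₁ : K) * P.M ^ 2 - (A : K) * P.e ^ 2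
  else (b₁ : K) * ((b₁ : K) * P.M ^ 2 - (B : K) * P.e ^ 2)

/-- the value `∏ N_{L_i/K}(g(P_i)) ^ n_i` of `g` at a zero-cycle, modulo squares -/
noncomputable def ZeroCycle.value {K : Type} [Field K] (z : ZeroCycle A B b₁ K) : K :=
  ∏ i, (Algebra.norm K (valueAt (z.P i))) ^ z.n i

/-- a family of local zero-cycles -/
structure LocalCycles (A B b₁ : ℤ) where
  /-- the real component -/
  re : ZeroCycle A B b₁ ℝ
  /-- the `p`-adic components -/
  pa : ∀ p : Nat.Primes, ZeroCycle A B b₁ ℚ_[(p : ℕ)]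

/-- all the degrees are one -/
def DegreeOne (z : LocalCycles A B b₁) : Prop := z.re.degree = 1 ∧ ∀ p, (z.pa p).degree = 1

/-- the values of `g` at the local zero-cycles -/
noncomputable def values (z : LocalCycles A B b₁) : Fam := ⟨z.re.value, fun p => (z.pa p).value⟩

/-- The family is orthogonal to the classes `(g, ε)` of the Brauer group of `C`, `ε = -1`, `ε = 2` or
`ε = ± q = 1` modulo `4`, `q` prime: the number of the places at which the Hilbert symbol is not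
trivial is even, so that the sum of the invariants is zero. -/
def Orthogonal (z : LocalCycles A B b₁) : Prop := ∀ ε : ℤ, IsTest ε → Even (ram (values z) ε).ncard

/-- the `b₁` in `ELS A B` for which there is an orthogonal family of local zero-cycles of degree
one on `C` -/
def Unobstructed (A B : ℤ) : Set ℤ :=
  {b₁ | b₁ ∈ ELS A B ∧ ∃ z : LocalCycles A B b₁, DegreeOne z ∧ Orthogonal z}

/-- `u_k = a_k ∏ f_{k,i}` -/
noncomputable def u {n : Fin 3 → ℕ} (a : Fin 3 → ℤ) (f : ∀ k : Fin 3, Fin (n k) → ℤ[X])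
    (k : Fin 3) : ℤ[X] := C (a k) * ∏ i, f k i

/-- `D = c ∏ g_i` -/
noncomputable def D {m : ℕ} (c : ℤ) (g : Fin m → ℤ[X]) : ℤ[X] := C c * ∏ i, g i

/-- `v` is a square modulo `f` in `ℚ[t]` -/
def SqMod (f v : ℤ[X]) : Prop := ∃ q : ℚ[X], f.map (Int.castRingHom ℚ) ∣
  (q ^ 2 - v.map (Int.castRingHom ℚ))

/-- `- D u₁`, `- D u₀`, `D u₀` -/
noncomputable def v {n : Fin 3 → ℕ} {m : ℕ} (a : Fin 3 → ℤ) (f : ∀ k : Fin 3, Fin (n k) → ℤ[X])
    (c : ℤ) (g : Fin m → ℤ[X]) : Fin 3 → ℤ[X] :=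
  ![-(D c g * u a f 1), -(D c g * u a f 0), D c g * u a f 0]

open Classical in
/-- the constant `κ = n₀ + n₁ - (n₂ + s) / 2 + r / 2`, where `s` is the number of the factors of
`u₂` modulo which `D u₀` is a square, and `r` the number of the `g_i` modulo which `u₀ u₁` is not
a square -/
noncomputable def κ {n : Fin 3 → ℕ} {m : ℕ} (a : Fin 3 → ℤ) (f : ∀ k : Fin 3, Fin (n k) → ℤ[X])
    (c : ℤ) (g : Fin m → ℤ[X]) : ℝ :=
  (n 0 : ℝ) + n 1 -
    ((n 2 : ℝ) + (univ.filter (fun i => SqMod (f 2 i) (D c g * u a f 0))).card) / 2 +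
    ((univ.filter (fun i => ¬ SqMod (g i) (u a f 0 * u a f 1))).card : ℝ) / 2

open Classical in
/-- the balance condition: `2 n_k + s_k ≤ n₀ + n₁ + n₂` for all `k`, where `s_k` is the number of
the factors `f_{k,i}` modulo which `v_k` is a square -/
def Balanced {n : Fin 3 → ℕ} {m : ℕ} (a : Fin 3 → ℤ) (f : ∀ k : Fin 3, Fin (n k) → ℤ[X])
    (c : ℤ) (g : Fin m → ℤ[X]) : Prop :=
  ∀ k, 2 * n k + (univ.filter (fun i => SqMod (f k i) (v a f c g k))).card ≤ n 0 + n 1 + n 2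

/-! ### Comparison with the library -/

open Pool.Agent.TH841.ZC (Cyc LCyc)

def cv {K : Type} [Field K] (P : Point A B b₁ K) : Pool.Agent.TH841.FD.Pnt A B b₁ K :=
  ⟨P.M, P.e, P.N, P.ne, P.eq⟩

def vc {K : Type} [Field K] (P : Pool.Agent.TH841.FD.Pnt A B b₁ K) : Point A B b₁ K :=
  ⟨P.M, P.e, P.N, P.ne, P.eq⟩

def cz {K : Type} [Field K] (z : ZeroCycle A B b₁ K) : Cyc A B b₁ K :=
  { ι := z.ι
    L := z.L
    P := fun i => cv (z.P i)
    n := z.n }

def zc {K : Type} [Field K] (z : Cyc A B b₁ K) : ZeroCycle A B b₁ K :=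
  { ι := z.ι
    L := z.L
    P := fun i => vc (z.P i)
    n := z.n }

noncomputable def cl (z : LocalCycles A B b₁) : LCyc A B b₁ := ⟨cz z.re, fun p => cz (z.pa p)⟩

noncomputable def lc (z : LCyc A B b₁) : LocalCycles A B b₁ := ⟨zc z.re, fun p => zc (z.pa p)⟩

lemma els_eq (A B : ℤ) : ELS A B = Pool.Agent.TH841.NO.SQ (-(A + B)) (A * B) := by
  have h : ∀ (K : Type) [Field K] (b₁ : ℤ), Nonempty (Point A B b₁ K) ↔
      Pool.Agent.TH841.NO.Qu K (-(A + B)) (A * B) b₁ := fun K _ b₁ =>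
    ⟨fun ⟨P⟩ => ⟨P.N, P.M, P.e, P.ne, P.eq⟩, fun ⟨N, M, e, h, h'⟩ => ⟨⟨M, e, N, h, h'⟩⟩⟩
  ext b₁
  constructor
  · rintro ⟨h1, h2, h3, h4⟩
    exact ⟨h1, h2, (h ℝ b₁).1 h3, fun p _ => (h ℚ_[p] b₁).1 (h4 p)⟩
  · rintro ⟨h1, h2, h3, h4⟩
    exact ⟨h1, h2, (h ℝ b₁).2 h3, fun p _ => (h ℚ_[p] b₁).2 (h4 p)⟩

lemma mulL : Pool.Agent.TH841.ZC.MUL := Pool.Agent.TH841.ZC.MULf.mul

lemma pntL : Pool.Agent.TH841.ZC.PNT := Pool.Agent.TH841.ZC.pnt
  (Pool.Agent.TH841.ZC.NRMf.nrm (Pool.Agent.TH841.ZC.MUMf.mum mulL))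

lemma unob_eq {A B : ℤ} (hA : A ≠ 0) (hB : B ≠ 0) (hAB : A ≠ B) :
    Unobstructed A B = Pool.Agent.TH841.FD.LF A B := by
  ext b₁
  constructor
  · rintro ⟨h1, z, hz, ho⟩
    exact Pool.Agent.TH841.ZC.mem_of_orth mulL pntL hA hB hAB (els_eq A B ▸ h1) (cl z) hz ho
  · intro h
    obtain ⟨z, hz, ho⟩ := Pool.Agent.TH841.ZC.orth_of_mem hAB h
    exact ⟨by rw [els_eq]; exact h.1, lc z, hz, ho⟩

open Classical in
/-- **Theorem.** (1) Let `A`, `B`, `A - B` be nonzero, `b₁ ≠ 0`, `b₁ ∣ A B`. For all families `z` of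
local zero-cycles of degree one on `C` and all `ε ≠ 0` the number of the places at which the symbol
`(g(z), ε)` is not trivial is finite. If `b₁ ∈ ELS A B` and there is a zero-cycle of degree one on `C`
over `ℚ`, then `b₁ ∈ Unobstructed A B`.
(2) Let `u_k = a_k ∏_{i < n_k} f_{k,i}`, `k = 0, 1, 2`, with `u₀ - u₁ = u₂`, and
`D = c ∏_{i < m} g_i`, where `a_k`, `c` are nonzero and the `n₀ + n₁ + n₂ + m` polynomials
`f_{k,i}`, `g_i` with integer coefficients are irreducible of positive degree and pairwise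
non-associated; assume the balance condition. For all `δ, ε > 0` and `L` there is `M₀` such that for
`M ≥ M₀` and `|N| ≤ M ^ L`: the sum of `#Unobstructed A B`, `A = (D u₀)(t)`, `B = (D u₁)(t)`, over the
integers `N < t ≤ N + M` with `A`, `B`, `A - B` nonzero is at most `(log M) ^ (δ - κ log 2)` times the
sum of `#ELS A B` over the same `t`; and for all `N < t ≤ N + M` with at most `ε M` exceptions the
numbers `A`, `B`, `A - B` are nonzero and
`#Unobstructed A B ≤ (log M) ^ (δ - κ log 2) * #ELS A B`. -/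
theorem result :
    (∀ A B b₁ : ℤ, A ≠ 0 → B ≠ 0 → A ≠ B → b₁ ≠ 0 → b₁ ∣ A * B →
      (∀ z : LocalCycles A B b₁, DegreeOne z → ∀ ε : ℤ, ε ≠ 0 → (ram (values z) ε).Finite) ∧
      (b₁ ∈ ELS A B → (∃ z : ZeroCycle A B b₁ ℚ, z.degree = 1) → b₁ ∈ Unobstructed A B)) ∧
    ∀ (n : Fin 3 → ℕ) (m : ℕ) (a : Fin 3 → ℤ) (f : ∀ k : Fin 3, Fin (n k) → ℤ[X])
    (c : ℤ) (g : Fin m → ℤ[X]) (_ : ∀ k, a k ≠ 0) (_ : c ≠ 0)
    (_ : ∀ k i, Irreducible (f k i) ∧ 0 < (f k i).natDegree)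
    (_ : ∀ i, Irreducible (g i) ∧ 0 < (g i).natDegree)
    (_ : ∀ k i l j, (⟨k, i⟩ : Σ k : Fin 3, Fin (n k)) ≠ ⟨l, j⟩ → ¬ Associated (f k i) (f l j))
    (_ : ∀ i j, i ≠ j → ¬ Associated (g i) (g j)) (_ : ∀ k i j, ¬ Associated (f k i) (g j))
    (_ : u a f 0 - u a f 1 = u a f 2) (_ : Balanced a f c g)
    (δ ε : ℝ) (L : ℕ) (_ : 0 < δ) (_ : 0 < ε),
    ∃ M₀ : ℕ, ∀ (N : ℤ) (M : ℕ), M₀ ≤ M → |N| ≤ (M : ℤ) ^ L →
      ∑ t ∈ (Ioc N (N + (M : ℤ))).filter (fun t => ∀ k, (D c g * u a f k).eval t ≠ 0),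
        ((Unobstructed ((D c g * u a f 0).eval t) ((D c g * u a f 1).eval t)).ncard : ℝ) ≤
      (Real.log M) ^ (δ - κ a f c g * Real.log 2) *
        ∑ t ∈ (Ioc N (N + (M : ℤ))).filter (fun t => ∀ k, (D c g * u a f k).eval t ≠ 0),
          ((ELS ((D c g * u a f 0).eval t) ((D c g * u a f 1).eval t)).ncard : ℝ) ∧
      (((Ioc N (N + (M : ℤ))).filter (fun t => ¬ ∀ A B : ℤ,
        A = (D c g * u a f 0).eval t → B = (D c g * u a f 1).eval t →
        A ≠ 0 ∧ B ≠ 0 ∧ A ≠ B ∧ ((Unobstructed A B).ncard : ℝ) ≤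
          (Real.log M) ^ (δ - κ a f c g * Real.log 2) * ((ELS A B).ncard : ℝ))).card : ℝ) ≤
        ε * M := by
  refine ⟨fun A B b₁ hA hB hAB hb hd => ⟨fun z hz ε hε => ?_, fun hs hz => ?_⟩, ?_⟩
  · exact Pool.Agent.TH841.ZC.ram_fin' mulL pntL hA hB hAB hb hd (cl z) hz ε hε
  · obtain ⟨z, hz⟩ := hz
    rw [unob_eq hA hB hAB]
    exact Pool.Agent.TH841.ZC.mem_of_cyc mulL pntL hA hB hAB (els_eq A B ▸ hs) (cz z) hz
  intro n m a f c g ha hc hf hg hff hgg hfg hu hb δ ε L hδ hε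
  have hirr : Pool.Agent.TH841.PT.Irr (Pool.Agent.TH841.TR.allf g f) := by
    refine ⟨?_, ?_, ?_⟩
    · rintro (x | i)
      · exact (hf x.1 x.2).1
      · exact (hg i).1
    · rintro (x | i)
      · exact (hf x.1 x.2).2
      · exact (hg i).2
    · rintro (x | i) (y | j) hxy
      · exact hff x.1 x.2 y.1 y.2 (fun h => hxy (congrArg Sum.inl h))
      · exact hfg x.1 x.2 j
      · exact fun h => hfg y.1 y.2 i h.symm
      · exact hgg i j (fun h => hxy (congrArg Sum.inr h))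
  have hbal : Pool.Agent.TH841.TR.Bal (Pool.Agent.TH841.LS.DG c g) a f :=
    Pool.Agent.TH841.TR.bal_of (v := v a f c g) rfl rfl rfl fun k => hb k
  obtain ⟨M1, h1⟩ := Pool.Agent.TH841.FD.pencil Pool.Agent.TH841.FD.COVLf.covl a f c g ha hc hirr
    hu hbal δ L hδ
  obtain ⟨M2, h2⟩ := Pool.Agent.TH841.FD.pencil_ae Pool.Agent.TH841.FD.COVLf.covl a f c g ha hc
    hirr hu hbal δ ε L hδ hε
  refine ⟨M1 + M2, fun N M hM hN => ⟨?_, ?_⟩⟩
  · simp only [els_eq]
    refine le_trans (le_of_eq (sum_congr rfl fun t ht => ?_)) (h1 N M (by omega) hN)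
    have h4 := (mem_filter.1 ht).2
    have h5 : (D c g * u a f 0).eval t ≠ (D c g * u a f 1).eval t := by
      intro h
      apply h4 2
      rw [← hu, mul_sub, eval_sub, h, sub_self]
    rw [unob_eq (h4 0) (h4 1) h5]
    rfl
  · refine le_trans (Nat.cast_le.2 (card_le_card fun t ht => ?_)) (h2 N M (by omega) hN)
    obtain ⟨ht1, ht2⟩ := mem_filter.1 ht
    refine mem_filter.2 ⟨ht1, fun h => ht2 fun A B hA hB => ?_⟩
    obtain ⟨k1, k2, k3, k4⟩ := h A B hA hB
    refine ⟨k1, k2, k3, ?_⟩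
    rw [unob_eq k1 k2 k3, els_eq]
    exact k4

end Pool.Agent.Results.MP_bd895b_nt.ZeroCyclesOnQuartics
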